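import Pool.Agent.W862.LE.CP
import Pool.Agent.W862.LE.Orb

/-!
# The list edge colouring conjecture and 1-factorizations invariant under a `p`-group

A criterion for the list edge colouring conjecture for regular graphs with a `p`-group of
automorphisms, and three applications: graphs with exactly one invariant 1-factorization, graphs
with a free `p`-group action with four independent orbits and degree less than `p`, and graphs on
`p + 1` vertices whose complement has a perfect matching (cocktail party graphs and their subgraphs).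
-/

set_option autoImplicit false

namespace Pool.Agent.Results.MP_2f9829_co.PGroupFactorizations

/-- The list edge colouring conjecture for the single graph `G`, in the form of the frozen statement
`S07911`: for every `k`, the edges of `G` can be properly coloured with `k` colours if and only if `G` has
a proper edge colouring from every list assignment with lists of at least `k` colours. -/
def ListEdgeConjectureFor {V : Type} (G : SimpleGraph V) : Prop :=
  ∀ k : ℕ, G.lineGraph.Colorable k ↔
    ∀ L : G.edgeSet → Finset ℕ, (∀ e, k ≤ (L e).card) →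
      ∃ f : G.edgeSet → ℕ, (∀ e, f e ∈ L e) ∧
        ∀ e e', G.lineGraph.Adj e e' → f e ≠ f e'

/-- The list edge colouring conjecture for all graphs isomorphic to a subgraph of `H` whose edges
cannot be properly coloured with `d - 1` colours. -/
def SubgraphsToo {V : Type} (H : SimpleGraph V) (d : ℕ) : Prop :=
  ∀ (W : Type) (G : SimpleGraph W) (φ : W → V), Function.Injective φ →
    (∀ u v, G.Adj u v → H.Adj (φ u) (φ v)) → ¬ G.lineGraph.Colorable (d - 1) →
    ListEdgeConjectureFor G

/-- The image of the edge `e` of `G` under the automorphism `a`. -/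
def moveEdge {V P : Type} [Group P] [MulAction P V] (G : SimpleGraph V)
    (hG : ∀ (a : P) (u v : V), G.Adj (a • u) (a • v) ↔ G.Adj u v) (a : P) (e : G.edgeSet) :
    G.edgeSet :=
  ⟨Sym2.map (fun v => a • v) e, by
    obtain ⟨e, he⟩ := e
    induction e using Sym2.ind with
    | _ u v => exact (hG a u v).2 he⟩

/-- The sign of a map of `Fin d` to itself; it is `0` if the map is not a permutation. -/
noncomputable def mapSign {d : ℕ} (f : Fin d → Fin d) : ℤ :=
  open Classical in
  if h : Function.Bijective f then ((Equiv.Perm.sign (Equiv.ofBijective f h) : ℤˣ) : ℤ) else 0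

lemma mapSign_eq {d : ℕ} (f : Fin d → Fin d) :
    mapSign f = Pool.Agent.W426.LE.sg (Equiv.refl (Fin d)) f := by
  classical
  unfold mapSign
  by_cases h : Function.Bijective f
  · rw [dif_pos h, Pool.Agent.W426.LE.sg_of_bij _ _ h]
    have hs' : ∀ (i1 i2 : DecidableEq (Fin d)) (τ τ' : Equiv.Perm (Fin d)), τ = τ' →
        ((@Equiv.Perm.sign _ i1 _ τ : ℤˣ) : ℤ) = ((@Equiv.Perm.sign _ i2 _ τ' : ℤˣ) : ℤ) :=
      fun i1 i2 τ τ' h => by rw [Subsingleton.elim i1 i2, h]
    exact hs' _ _ _ _ (Equiv.ext fun _ => rfl)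
  · rw [dif_neg h, Pool.Agent.W426.LE.sg_of_not _ _ h]

lemma subgraphs_of {V : Type} (H : SimpleGraph V) (d : ℕ)
    (h : Pool.Agent.W426.LE.EL.EL H d) : SubgraphsToo H d := by
  intro W G φ hφ hG hc k
  exact Pool.Agent.W426.LE.EL.lec G d (Pool.Agent.W426.LE.EL.mono G H φ hφ hG d h) hc k

lemma self_of {V : Type} [Finite V] [Nonempty V] (H : SimpleGraph V) (d : ℕ) (hd : 1 ≤ d)
    (hdeg : ∀ v, (H.neighborSet v).ncard = d)
    (h : Pool.Agent.W426.LE.EL.EL H d) : ListEdgeConjectureFor H ∧ SubgraphsToo H d := by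
  classical
  have := Fintype.ofFinite V
  refine ⟨?_, subgraphs_of H d h⟩
  refine subgraphs_of H d h V H id Function.injective_id (fun u v h => h) ?_
  refine Pool.Agent.W426.LE.EL.deg H d hd (Classical.arbitrary V) ?_
  rw [← hdeg (Classical.arbitrary V), ← SimpleGraph.card_neighborSet_eq_degree,
    Set.ncard_eq_toFinset_card', Set.toFinset_card]

/-- (1) Criterion. Let `p` be a prime, `P` a finite `p`-group acting by automorphisms on the finite
`d`-regular graph `G`, `d ≥ 1`, let `inc v` enumerate the `d` edges at `v` and let `v0` be a vertex.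
Let `S` be the set of the colourings `x` of the edges with `d` colours which are normalised by
`x (inc v0 i) = i` and invariant under `P` up to permutations of the colours. If the sum over `S` of
the products over all `v` of the signs of `i ↦ x (inc v i)` (zero if `x` is not proper) is not
divisible by `p`, then the conjecture holds for `G` and the subgraphs of `G`. (2) This is the case if
`G` has exactly one invariant 1-factorization. (3) The case of a free action with four orbits, no
edge inside an orbit, and `d < p`. (4) Graphs on `p + 1` vertices whose complement has a perfect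
matching `{v, τ v}`. -/
theorem result :
    (∀ (p : ℕ), p.Prime → ∀ (P V : Type) [Group P] [Finite P] [Finite V] [Nonempty V]
      [MulAction P V], IsPGroup p P → ∀ (G : SimpleGraph V)
      (hG : ∀ (a : P) (u v : V), G.Adj (a • u) (a • v) ↔ G.Adj u v) (d : ℕ), 1 ≤ d →
      (∀ v, (G.neighborSet v).ncard = d) →
      ∀ (inc : V → Fin d → G.edgeSet), (∀ v, Function.Injective (inc v)) →
      (∀ v (e : G.edgeSet), v ∈ (e : Sym2 V) ↔ ∃ i, inc v i = e) →
      ∀ (v0 : V) (S : Set (G.edgeSet → Fin d)),
      (∀ x, x ∈ S ↔ ((∀ i, x (inc v0 i) = i) ∧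
        ∀ a : P, ∃ σ : Equiv.Perm (Fin d), ∀ e, x (moveEdge G hG a e) = σ (x e))) →
      ¬ ((p : ℤ) ∣ ∑ᶠ x ∈ S, ∏ᶠ v, mapSign (fun i => x (inc v i))) →
      ListEdgeConjectureFor G ∧ SubgraphsToo G d) ∧
    (∀ (p : ℕ), p.Prime → ∀ (P V : Type) [Group P] [Finite P] [Finite V] [Nonempty V]
      [MulAction P V], IsPGroup p P → ∀ (G : SimpleGraph V)
      (hG : ∀ (a : P) (u v : V), G.Adj (a • u) (a • v) ↔ G.Adj u v) (d : ℕ), 1 ≤ d →
      (∀ v, (G.neighborSet v).ncard = d) → ∀ x0 : G.lineGraph.Coloring (Fin d),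
      (∀ a : P, ∃ σ : Equiv.Perm (Fin d), ∀ e, x0 (moveEdge G hG a e) = σ (x0 e)) →
      (∀ x : G.lineGraph.Coloring (Fin d),
        (∀ a : P, ∃ σ : Equiv.Perm (Fin d), ∀ e, x (moveEdge G hG a e) = σ (x e)) →
          ∃ σ : Equiv.Perm (Fin d), ∀ e, x e = σ (x0 e)) →
      ListEdgeConjectureFor G ∧ SubgraphsToo G d) ∧
    (∀ (p : ℕ), p.Prime → ∀ (P V : Type) [Group P] [Finite P] [Finite V] [MulAction P V],
      IsPGroup p P → ∀ (G : SimpleGraph V),
      (∀ (a : P) (u v : V), G.Adj (a • u) (a • v) ↔ G.Adj u v) →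
      (∀ (a : P) (v : V), a • v = v → a = 1) → (∀ (a : P) (v : V), ¬ G.Adj v (a • v)) →
      Nat.card V = 4 * Nat.card P → ∀ d : ℕ, 1 ≤ d → d < p →
      (∀ v, (G.neighborSet v).ncard = d) → ListEdgeConjectureFor G ∧ SubgraphsToo G d) ∧
    (∀ (p : ℕ), p.Prime → p ≠ 2 → ∀ (V : Type) [Finite V], Nat.card V = p + 1 →
      ∀ τ : V → V, (∀ v, τ (τ v) = v) → (∀ v, τ v ≠ v) →
      ∀ G : SimpleGraph V, (∀ v, ¬ G.Adj v (τ v)) →
      ¬ G.lineGraph.Colorable (p - 2) → ListEdgeConjectureFor G) := by
  refine ⟨?_, ?_, ?_, ?_⟩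
  · intro p hp P V _ _ _ _ _ hP G hG d hd hdeg inc h3 h12 v0 S hS hsum
    classical
    have : Fact p.Prime := ⟨hp⟩
    have := Fintype.ofFinite V
    have := Fintype.ofFinite P
    refine self_of G d hd hdeg ?_
    have h1 : ∀ v i, v ∈ (inc v i : Sym2 V) := fun v i => (h12 v _).2 ⟨i, rfl⟩
    have h2 : ∀ v (e : G.edgeSet), v ∈ (e : Sym2 V) → ∃ i, inc v i = e := fun v e =>
      (h12 v e).1
    have h5 := Pool.Agent.W862.LE.gr_EL (D := Fin d) G inc h1 h2 h3 hG v0 p hP S.toFinset
      (fun x _ => by
        rw [Set.mem_toFinset, hS]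
        rfl)
      (by
        intro hdvd
        apply hsum
        rw [finsum_mem_eq_toFinset_sum]
        refine hdvd.trans (dvd_of_eq (Finset.sum_congr rfl fun x _ => ?_))
        rw [finprod_eq_prod_of_fintype]
        unfold Pool.Agent.W862.LE.Abs.wt
        exact Finset.prod_congr rfl fun v _ => (mapSign_eq _).symm)
    rwa [Fintype.card_fin] at h5
  · intro p hp P V _ _ _ _ _ hP G hG d hd hdeg x0 hx0 hu
    have : Fact p.Prime := ⟨hp⟩
    have := Fintype.ofFinite V
    have := Fintype.ofFinite P
    exact self_of G d hd hdeg (Pool.Agent.W862.LE.uniq_EL G hG inferInstance p hP d hdeg x0 hx0 hu)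
  · intro p hp P V _ _ _ _ hP G hG hfree hind hV d hd hdp hdeg
    classical
    have : Fact p.Prime := ⟨hp⟩
    have := Fintype.ofFinite V
    have := Fintype.ofFinite P
    have hne : Nonempty V := by
      refine Fintype.card_pos_iff.1 ?_
      rw [← Nat.card_eq_fintype_card, hV, Nat.card_eq_fintype_card]
      exact Nat.mul_pos (by norm_num) Fintype.card_pos
    refine self_of G d hd hdeg ?_
    refine Pool.Agent.W862.LE.four_orbits p hP G hG hfree hind
      (by rw [← Nat.card_eq_fintype_card, hV, Nat.card_eq_fintype_card]) d ?_ hdp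
    intro v
    rw [← hdeg v, ← SimpleGraph.card_neighborSet_eq_degree, Set.ncard_eq_toFinset_card',
      Set.toFinset_card]
  · intro p hp hp2 V _ hV τ hτ hτ' G hG hc
    have : Fact p.Prime := ⟨hp⟩
    have := Fintype.ofFinite V
    have h5 := Pool.Agent.W862.LE.CP.cocktail p hp2 V
      (by rw [← Nat.card_eq_fintype_card, hV]) τ hτ hτ' G (fun u v huv h => hG u (h ▸ huv))
    refine subgraphs_of G (p - 1) h5 V G id Function.injective_id (fun u v h => h) ?_
    have h6 : p - 1 - 1 = p - 2 := by omega
    rw [h6]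
    exact hc

end Pool.Agent.Results.MP_2f9829_co.PGroupFactorizations
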