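import Pool.Agent.W975.LE.Aut
set_option autoImplicit false

/-! The list edge colouring conjecture for graphs on `2 p^k` vertices with an automorphism having two orbits
of size `p^k` and small degrees, and for their subgraphs of the same chromatic index. -/

namespace Pool.Agent.Results.MP_2f9829_co.TwoOrbitGraphs

open Finset
open scoped Classical

/-- The list edge colouring conjecture for the single graph `G`, in the form of the frozen statement
`S07911`: for every `k`, the edges of `G` can be properly coloured with `k` colours if and only if `G` has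
a proper edge colouring from every list assignment with lists of at least `k` colours. -/
def ListEdgeConjectureFor {V : Type} (G : SimpleGraph V) : Prop :=
  ∀ k : ℕ, G.lineGraph.Colorable k ↔
    ∀ L : G.edgeSet → Finset ℕ, (∀ e, k ≤ (L e).card) →
      ∃ f : G.edgeSet → ℕ, (∀ e, f e ∈ L e) ∧
        ∀ e e', G.lineGraph.Adj e e' → f e ≠ f e'

/-- Let `p` be an odd prime, `k ≥ 1` and `H` a graph on `2 p^k` vertices with an automorphism `σ`, `σ^(p^k) = 1`,
such that every vertex is of the form `σ^i a` or `σ^i b`. Suppose that `a` is adjacent to `p - 1` vertices of its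
own orbit, none of the form `σ^i a` with `p ∣ i`, the same for `b`, and that `a` is adjacent to `t` vertices
of the orbit of `b`, `1 ≤ t ≤ p - 1`. Then the list edge colouring conjecture holds for `H`
(a regular graph of degree `p - 1 + t`) and for every graph `G` isomorphic to a subgraph of `H` whose edges cannot
be properly coloured with `p - 2 + t` colours. -/
theorem result (p k : ℕ) (hp : p.Prime) (hp2 : p ≠ 2) (hk : k ≠ 0) (V : Type) [Fintype V] (H : SimpleGraph V)
    (σ : Equiv.Perm V) (a b : V) (t : ℕ)
    (hV : Fintype.card V = 2 * p ^ k) (hH : ∀ u v, H.Adj (σ u) (σ v) ↔ H.Adj u v) (hσ : σ ^ (p ^ k) = 1)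
    (hab : ∀ v, ∃ i : ℕ, v = (σ ^ i) a ∨ v = (σ ^ i) b)
    (ha : ∀ i : ℕ, H.Adj a ((σ ^ i) a) → ¬ p ∣ i) (hb : ∀ i : ℕ, H.Adj b ((σ ^ i) b) → ¬ p ∣ i)
    (haa : ((range (p ^ k)).filter (fun i => H.Adj a ((σ ^ i) a))).card = p - 1)
    (hbb : ((range (p ^ k)).filter (fun i => H.Adj b ((σ ^ i) b))).card = p - 1)
    (hcc : ((range (p ^ k)).filter (fun i => H.Adj a ((σ ^ i) b))).card = t) (ht : 1 ≤ t) (ht2 : t ≤ p - 1) :
    ListEdgeConjectureFor H ∧
    ∀ (W : Type) [Fintype W] (G : SimpleGraph W) (φ : W → V), Function.Injective φ →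
      (∀ u v, G.Adj u v → H.Adj (φ u) (φ v)) → ¬ G.lineGraph.Colorable (p - 2 + t) →
      ListEdgeConjectureFor G := by
  have hpos : 2 ≤ p := hp.two_le
  have h0 := Pool.Agent.W975.LE.main p k hp hp2 hk V H σ a b t hV hH hσ hab ha hb haa hbb hcc ht ht2
  have main : ∀ (W : Type) [Fintype W] (G : SimpleGraph W) (φ : W → V), Function.Injective φ →
      (∀ u v, G.Adj u v → H.Adj (φ u) (φ v)) → ¬ G.lineGraph.Colorable (p - 2 + t) →
      ListEdgeConjectureFor G := by
    intro W _ G φ hφ hG hc
    have h1 := Pool.Agent.W426.LE.EL.mono G H φ hφ hG _ h0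
    exact fun c => Pool.Agent.W426.LE.EL.lec G (p - 1 + t) h1 (by
      have : p - 1 + t - 1 = p - 2 + t := by omega
      rw [this]
      exact hc) c
  refine ⟨?_, main⟩
  refine main V H id Function.injective_id (fun u v h => h) ?_
  let F : Fin (p ^ k) × Bool → V := fun q => if q.2 = true then (σ ^ (q.1 : ℕ)) b else (σ ^ (q.1 : ℕ)) a
  have hpk : 0 < p ^ k := pow_pos hp.pos k
  have hpw : ∀ i : ℕ, σ ^ (i % p ^ k) = σ ^ i := by
    intro i
    conv_rhs => rw [← Nat.mod_add_div i (p ^ k), pow_add, pow_mul, hσ, one_pow, mul_one]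
  have hsurj : Function.Surjective F := by
    intro v
    obtain ⟨i, hi | hi⟩ := hab v
    · refine ⟨(⟨i % p ^ k, Nat.mod_lt _ hpk⟩, false), ?_⟩
      simp only [F]
      rw [hi, ← hpw i]
      simp
    · refine ⟨(⟨i % p ^ k, Nat.mod_lt _ hpk⟩, true), ?_⟩
      simp only [F]
      rw [hi, ← hpw i]
      simp
  have hbij : Function.Bijective F := by
    rw [Fintype.bijective_iff_surjective_and_card]
    refine ⟨hsurj, ?_⟩
    rw [Fintype.card_prod, Fintype.card_fin, Fintype.card_bool, hV, mul_comm]
  have hinj := hbij.1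
  have hdeg : p - 1 + t ≤ H.degree a := by
    have h1 : (((range (p ^ k)).filter (fun i => H.Adj a ((σ ^ i) a))).image (fun i => (σ ^ i) a)) ∪
        (((range (p ^ k)).filter (fun i => H.Adj a ((σ ^ i) b))).image (fun i => (σ ^ i) b)) ⊆
        H.neighborFinset a := by
      intro u hu
      rw [SimpleGraph.mem_neighborFinset]
      rw [mem_union, mem_image, mem_image] at hu
      rcases hu with ⟨i, hi, rfl⟩ | ⟨i, hi, rfl⟩
      · exact (mem_filter.1 hi).2
      · exact (mem_filter.1 hi).2
    have h2 := card_le_card h1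
    rw [card_union_of_disjoint, card_image_of_injOn, card_image_of_injOn, haa, hcc] at h2
    · exact h2
    · intro i hi j hj hij
      have hi' := mem_range.1 (mem_filter.1 (mem_coe.1 hi)).1
      have hj' := mem_range.1 (mem_filter.1 (mem_coe.1 hj)).1
      have : F (⟨i, hi'⟩, true) = F (⟨j, hj'⟩, true) := by simpa [F] using hij
      have h3 := hinj this
      simpa using h3
    · intro i hi j hj hij
      have hi' := mem_range.1 (mem_filter.1 (mem_coe.1 hi)).1
      have hj' := mem_range.1 (mem_filter.1 (mem_coe.1 hj)).1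
      have : F (⟨i, hi'⟩, false) = F (⟨j, hj'⟩, false) := by simpa [F] using hij
      have h3 := hinj this
      simpa using h3
    · rw [Finset.disjoint_left]
      intro u hu hu'
      obtain ⟨i, hi, rfl⟩ := mem_image.1 hu
      obtain ⟨j, hj, hij⟩ := mem_image.1 hu'
      have hi' := mem_range.1 (mem_filter.1 hi).1
      have hj' := mem_range.1 (mem_filter.1 hj).1
      have : F (⟨j, hj'⟩, true) = F (⟨i, hi'⟩, false) := by simpa [F] using hij
      have h3 := hinj this
      simp at h3
  have h3 := Pool.Agent.W426.LE.EL.deg H (p - 1 + t) (by omega) a hdeg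
  have : p - 1 + t - 1 = p - 2 + t := by omega
  rw [this] at h3
  exact h3

end Pool.Agent.Results.MP_2f9829_co.TwoOrbitGraphs
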